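import Pool.Agent.R912.CZ.Main

/-!
# Colmez's product formula: reduction to cyclic extensions of totally real fields

Let `K` be a CM field which is finite and Galois over `ℚ`, with group `G` and complex conjugation `c`.
The subgroups `C` of `G` correspond to the subfields `E` of `K`, the embeddings of `E` form the set
`G ⧸ C`, and `E` is a CM field exactly if `c ∉ C`. For `x` in `G` let `F_x` be the subfield fixed by
`x` and `c`, a totally real field over which `K` is abelian. The property `IsCyclicCM c C x d` means
that `E` is a CM field which contains `F_x`, that `[K : E]` is a power of `2` and that `E` is cyclic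
over `F_x` of degree at least `d`, the group of `E` over `F_x` being generated by `x`. The pair `(C, x)`
is `Essential` if moreover `d = 4`, `E` is not abelian over `ℚ`, no automorphism of `E` conjugates
`x` to `c x`, and `x` is not conjugate to all generators of the group of `E / F_x` under the
automorphisms of `E`. It is `EssentialSym` if `d = 8`, `E` is not abelian over `ℚ`, no automorphism
of `E` conjugates `x` to `c x` or `c x⁻¹`, and there is a generator which is conjugate neither to `x`
nor to `x⁻¹`. For a CM type `Φ` of `E` let `swap c y Φ` be the CM type which one gets from `Φ` when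
the embedding `y` and its complex conjugate `c y` are exchanged.

`ColmezHeights` (of helper484) holds the heights `ht(E,ψ,Φ)`, the functional `Z^∞` and three theorems
of the literature: `ht(E,ψ,Φ)` is a linear function of `a⁰_{E,ψ,Φ}` (Colmez), the product formula for
fields `E` abelian over `ℚ` (Colmez, Obus), and the averaged formula (Andreatta, Goren, Howard,
Madapusi Pera; Yuan, Zhang).

1. Colmez's product formula holds for all CM subfields `E` of `K`, all embeddings `ψ` and all CM types
   `Φ` of `E` if and only if for each essential pair there is a CM type `Φ` of `E` such that the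
   difference of the two sides of the product formula is the same for `(E, 1, Φ)` and for
   `(E, 1, swap c x Φ)`.
2. Colmez's formula for the Faltings heights of the abelian varieties with complex multiplication
   holds for all CM subfields `E` of `K` and all CM types of `E` if and only if for each pair which is
   `EssentialSym` there is a CM type `Φ` of `E` for which the second difference of the two sides of
   the formula, taken for the exchanges at the embeddings `1` and `x`, is zero.
-/

open Finset Pool.Agent.R484.Colmez Pool.Agent.R912.CZ

namespace Pool.Agent.Results.MP_a2beea_nt.CyclicOverTotallyReal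

/-- **Colmez's product formula is equivalent to a formula for neighbouring CM types of CM fields
which are cyclic over a totally real field.** -/
theorem result {G : Type} [Group G] [Fintype G] {c : G} (hc : ∀ g : G, g * c = c * g)
    (hcc : c * c = 1) (T : ColmezHeights G c) :
    ((∀ (C : Subgroup G) (ψ : G ⧸ C) (Φ : Finset (G ⧸ C)), IsCMType c Φ →
        T.ht C ψ Φ = T.Z (a0 ψ Φ)) ↔
      ∀ (C : Subgroup G) (x : G), Essential c C x →
        ∃ Φ : Finset (G ⧸ C), IsCMType c Φ ∧
          dif T ((1 : G) : G ⧸ C) Φ = dif T ((1 : G) : G ⧸ C) (swap c (x : G ⧸ C) Φ)) ∧
    ((∀ (C : Subgroup G) (Φ : Finset (G ⧸ C)), IsCMType c Φ →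
        ∑ ψ ∈ Φ, T.ht C ψ Φ = ∑ ψ ∈ Φ, T.Z (a0 ψ Φ)) ↔
      ∀ (C : Subgroup G) (x : G), EssentialSym c C x →
        ∃ Φ : Finset (G ⧸ C), IsCMType c Φ ∧
          fal T Φ + fal T (swap c ((1 : G) : G ⧸ C) (swap c (x : G ⧸ C) Φ)) =
            fal T (swap c ((1 : G) : G ⧸ C) Φ) + fal T (swap c (x : G ⧸ C) Φ)) :=
  ⟨main1 hc hcc T, main2 hc hcc T⟩

end Pool.Agent.Results.MP_a2beea_nt.CyclicOverTotallyReal
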