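import Pool.Agent.R919.CL.Fin

/-!
# MP_a2beea_nt: Colmez's product formula for all CM types of a CM field with few orbits of pairs of
# embeddings

Let `K` be a CM field which is finite and Galois over `ℚ`, with group `G` and complex conjugation `c`. The
subgroups `C` of `G` correspond to the subfields `E` of `K`; `ColmezHeights` (with the published theorems
of Colmez, Obus, Andreatta-Goren-Howard-Madapusi Pera and Yuan-Zhang) and `a0` are as in
`MP_a2beea_nt.RationalPart`.

An embedding `z` of `E` is separated from the embedding `ψ` if some element of `G` fixes `ψ` and maps `z`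
to its complex conjugate; it is linked to `ψ` if `z` and `ψ` are equal on a subfield `E₀` and the
stabilizer of `ψ` is transitive on the embeddings `z' ≠ ψ` which are equal to `ψ` on `E₀` and not
separated from `ψ`.

1. If for all `ψ` and `z ≠ ψ, c ψ` the embedding `z` is separated from `ψ`, or `z` or `c z` is linked to `ψ`,
   then the product formula holds for all CM types of `E` and all embeddings.
2. This is so if the maximal real subfield `F` of `E` is Galois over `ℚ` and the automorphism group of `E`
   is `{1, c}`. **So Colmez's formula holds for all CM types of all CM fields `E` with `Aut(E) = {1, c}`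
   whose maximal real subfield is Galois over `ℚ`.**
3. It is so if `E = F(√δ)` and for all pairs of conjugates the fields `F^c(√δ_i)`, `F^c(√δ_j)` are
   different, for an arbitrary `F` with Galois closure `F^c`.
4. **It is so if `E = F K₀` with an imaginary quadratic field `K₀` and a totally real field `F` whose
   Galois group acts doubly transitively on the embeddings of `F`** (all CM types of all signatures).
5. In general both sides of the formula for `(E, ψ, Φ)` do not change if `Φ` is changed at embeddings
   which are separated from `ψ`.

The Weyl CM fields (`Gal(E^c / F^c)` of order `2^g`), for which `G` acts transitively on the CM types, are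
the extreme case of 3. Here the group `Gal(E^c / F^c) ⊆ {±1}^g` only has to separate the coordinates, so
its order can be as small as about `2g`. In 4 the cases of the groups `S_n` and `A_n` are known (Yang, Yin).
-/

open Finset Pool.Agent.R484.Colmez Pool.Agent.R919.CL

namespace Pool.Agent.Results.MP_a2beea_nt.PairsOfEmbeddings

theorem result {G : Type} [Group G] [Fintype G] {c : G} (hc : ∀ g : G, g * c = c * g)
    (hcc : c * c = 1) (T : ColmezHeights G c) (C : Subgroup G) :
    (PairCriterion c C ∨ (RealGalois c C ∧ NoAutomorphisms c C) ∨ DifferentComposita c C ∨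
      DoublyTransitive c C → ∀ (ψ : G ⧸ C) (Φ : Finset (G ⧸ C)), IsCMType c Φ →
      T.ht C ψ Φ = T.Z (a0 ψ Φ)) ∧
    (∀ (ψ : G ⧸ C) (Φ Φ' : Finset (G ⧸ C)), IsCMType c Φ → IsCMType c Φ' →
      (∀ z ∈ Φ, z ∉ Φ' → Separated c ψ z) →
      T.ht C ψ Φ = T.ht C ψ Φ' ∧ T.Z (a0 ψ Φ) = T.Z (a0 ψ Φ')) := by
  refine ⟨fun h ψ Φ hΦ => main_crit hc hcc T ?_ ψ hΦ,
    fun ψ _ _ hΦ hΦ' h => main_congr hcc T ψ hΦ hΦ' h⟩
  rcases h with h | ⟨h1, h2⟩ | h | h
  · exact h
  · exact crit_of_separated (separated_of_galois hc hcc h1 h2)
  · exact crit_of_separated (separated_of_composita hcc h)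
  · exact crit_of_doublyTransitive hc hcc h

end Pool.Agent.Results.MP_a2beea_nt.PairsOfEmbeddings
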