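import Pool.Agent.R484.CPc

/-!
# Colmez's product formula: rational class functions and linear characters

Let `K` be a CM field which is finite and Galois over `ℚ`, with group `G` and complex conjugation `c`
(a central element of order two).  The subgroups `C` of `G` correspond to the subfields `E` of `K`, the
embeddings of `E` form the set `G ⧸ C`, and `E` is a CM field exactly if `c ∉ C`.  For a CM type `Φ`
of `E` and an embedding `ψ`, `a0 ψ Φ` is Colmez's function `a⁰_{E,ψ,Φ}` on `G`.

Three theorems in the literature are used, as the fields of the structure `ColmezHeights`: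
Colmez's theorem that `ht(E,ψ,Φ)` is a linear function of `a⁰_{E,ψ,Φ}` (with value `log 2π` at the
constant function `1`), the product formula for the fields which are abelian over `ℚ` (Colmez, Obus),
and the averaged formula (Andreatta, Goren, Howard, Madapusi Pera; Yuan, Zhang).

1. The formula `ht(E,ψ,Φ) = Z^∞((a⁰)^*, 0)` holds for all finite rational linear combinations of
   functions `a⁰_{E,ψ,Φ}` which are sums of a function which is constant on the cosets of the commutator
   subgroup and of a function which has the same values at `g` and at `g ^ k` for all `k` prime to the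
   order of `g`.
2. If each `g` in `G` is conjugate to `c g`, or to all elements of `g [G,G]`, or to all its powers
   `g ^ k`, `k` prime to its order, then the product formula holds for all CM types `Φ` of all CM
   subfields `E` of `K` and all embeddings `ψ`.
3. If each `g` in `G` is conjugate to `c g`, or to all elements of `g [G,G]`, or satisfies `g ^ 4 = 1`
   or `g ^ 6 = 1`, or is such that all these powers `g ^ k` are conjugate to `g` or to `g⁻¹`, then for
   all CM types `Φ` of all CM subfields `E` the sum of the formulas over the `ψ` in `Φ` holds (this is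
   Colmez's formula for the Faltings height of the abelian varieties with complex multiplication of
   type `(E, Φ)`).
-/

open Finset Pool.Agent.R484.Colmez

namespace Pool.Agent.Results.MP_a2beea_nt.RationalPart

/-- **Colmez's product formula and rational class functions.** -/
theorem result {G : Type} [Group G] [Fintype G] {c : G} (hc : ∀ g : G, g * c = c * g)
    (hcc : c * c = 1) (T : ColmezHeights G c) :
    (∀ (ι : Type) [Fintype ι] (q : ι → ℚ) (C : ι → Subgroup G) (ψ : ∀ i, G ⧸ C i)
      (Φ : ∀ i, Finset (G ⧸ C i)), (∀ i, IsCMType c (Φ i)) →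
      (∃ l : G → ℚ, (∀ g, ∀ n ∈ commutator G, l (g * n) = l g) ∧
        ∀ (g : G) (k : ℕ), k.Coprime (orderOf g) →
          ∑ i, q i * a0 (ψ i) (Φ i) (g ^ k) - l (g ^ k) = ∑ i, q i * a0 (ψ i) (Φ i) g - l g) →
      ∑ i, q i * T.ht (C i) (ψ i) (Φ i) = ∑ i, q i * T.Z (a0 (ψ i) (Φ i))) ∧
    ((∀ g : G, IsConj g (c * g) ∨ (∀ n ∈ commutator G, IsConj g (g * n)) ∨
        ∀ k : ℕ, k.Coprime (orderOf g) → IsConj g (g ^ k)) →
      ∀ (C : Subgroup G) (ψ : G ⧸ C) (Φ : Finset (G ⧸ C)), IsCMType c Φ →
        T.ht C ψ Φ = T.Z (a0 ψ Φ)) ∧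
    ((∀ g : G, IsConj g (c * g) ∨ (∀ n ∈ commutator G, IsConj g (g * n)) ∨ g ^ 4 = 1 ∨
        g ^ 6 = 1 ∨ ∀ k : ℕ, k.Coprime (orderOf g) → IsConj g (g ^ k) ∨ IsConj g⁻¹ (g ^ k)) →
      ∀ (C : Subgroup G) (Φ : Finset (G ⧸ C)), IsCMType c Φ →
        ∑ ψ ∈ Φ, T.ht C ψ Φ = ∑ ψ ∈ Φ, T.Z (a0 ψ Φ)) :=
  main hc hcc T

end Pool.Agent.Results.MP_a2beea_nt.RationalPart
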